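import Pool.Agent.W_7d29a1_h47q.LdA
import Pool.Agent.W_7d29a1_h47q.LgvU

/-!
# An a priori bound for the mean point to point excess inside a flat cone (`d = 1`)

If `Λ(h - s) ≥ Λ(h) - s v₁` and `Λ(h + s) ≥ Λ(h) + s v₂` for all `s ≥ 0`, then
`n Λ(h) - h y - E log Z(0, (n, y)) ≤ (4/η + 2) √n (log (2n+1) + C)` for
`(v₁ + η) n ≤ y ≤ (v₂ - η) n`.
-/

namespace Pool.Agent.W_7d29a1_h85

open MeasureTheory ProbabilityTheory Finset Pool.Agent.W_7d29a1_h47

noncomputable section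

variable {μ : Measure ℝ} [IsProbabilityMeasure μ]

/-- Concavity of the expected point to point free energy. -/
lemma ap_conc (hμ : EM μ) {n : ℕ} {y : ℤ} (h1 : Reach 0 n (y - 2)) (h2 : Reach 0 n (y + 2)) :
    ap μ n (y - 2) + ap μ n (y + 2) ≤ 2 * ap μ n y := by
  have h0 : Reach 0 n y := by
    rw [Reach_iff] at h1 h2 ⊢
    obtain ⟨h3, h4⟩ := h1
    obtain ⟨h5, h6⟩ := h2
    rw [abs_le] at h3 h5 ⊢
    constructor
    · constructor <;> linarith [h3.1, h3.2, h5.1, h5.2]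
    · omega
  have hR : ∀ {z : ℤ}, Reach 0 n (z - 2) → Reach 2 n z := by
    rintro z ⟨s, hs, h⟩
    exact ⟨s, hs, by omega⟩
  have ha : Reach 2 n y := hR h1
  have hb : Reach 2 n (y + 2) := hR (by rw [show y + 2 - 2 = y by ring]; exact h0)
  have hpt : ∀ g : Env, Real.log (Zp g 0 2 n y) + Real.log (Zp g 0 0 n (y + 2)) ≤
      Real.log (Zp g 0 0 n y) + Real.log (Zp g 0 2 n (y + 2)) := by
    intro g
    have h3 := Zp_lgv g n (ℓ := 2) (by norm_num) (by norm_num) (z := y) (z' := y + 2) (by linarith)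
    have p1 := Zp_pos g ha 0
    have p2 := Zp_pos g h2 0
    have p3 := Zp_pos g h0 0
    have p4 := Zp_pos g hb 0
    have h4 := Real.log_le_log (mul_pos (by exact_mod_cast p1) p2) h3
    rw [Real.log_mul (by exact_mod_cast p1.ne') p2.ne', Real.log_mul p3.ne' (by exact_mod_cast p4.ne')]
      at h4
    exact_mod_cast h4
  have i1 := (EMom_logZp hμ ha 0).integrable
  have i2 := (EMom_logZp hμ h2 0).integrable
  have i3 := (EMom_logZp hμ h0 0).integrable
  have i4 := (EMom_logZp hμ hb 0).integrable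
  have h5 := integral_mono (i1.add i2) (i3.add i4) (fun g => hpt g)
  simp only [Pi.add_apply] at h5
  rw [integral_add i1 i2, integral_add i3 i4] at h5
  simp only [integral_logZp] at h5
  rw [show y - 0 = y by ring, show y + 2 - 0 = y + 2 by ring, show y + 2 - 2 = y by ring] at h5
  linarith

/-- The expected point to point free energy is quasiconcave. -/
lemma ap_ge_min (hμ : EM μ) {n : ℕ} {y₁ y y₂ : ℤ} (h1 : Reach 0 n y₁) (h : Reach 0 n y)
    (h2 : Reach 0 n y₂) (ha : y₁ ≤ y) (hb : y ≤ y₂) (h' : ℝ) {c : ℝ}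
    (hc1 : c ≤ ap μ n y₁ + h' * y₁) (hc2 : c ≤ ap μ n y₂ + h' * y₂) : c ≤ ap μ n y + h' * y := by
  rw [Reach_iff] at h1 h h2
  obtain ⟨m, hm⟩ : ∃ m : ℕ, y₂ = y₁ + 2 * m := ⟨((y₂ - y₁) / 2).toNat, by omega⟩
  obtain ⟨k, hk⟩ : ∃ k : ℕ, y = y₁ + 2 * k := ⟨((y - y₁) / 2).toNat, by omega⟩
  have hkm : k ≤ m := by omega
  set q : ℕ → ℝ := fun i => ap μ n (y₁ + 2 * i) + h' * ((y₁ + 2 * (i : ℤ) : ℤ) : ℝ) with hq
  have hqm : c ≤ q m := by rw [hq]; simp only; rw [← hm]; exact hc2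
  have hq0 : c ≤ q 0 := by rw [hq]; simpa using hc1
  have hconc : ∀ i, 0 < i → i < m → q (i - 1) + q (i + 1) ≤ 2 * q i := by
    intro i hi hi'
    have e1 : y₁ + 2 * ((i - 1 : ℕ) : ℤ) = y₁ + 2 * (i : ℤ) - 2 := by omega
    have e2 : y₁ + 2 * ((i + 1 : ℕ) : ℤ) = y₁ + 2 * (i : ℤ) + 2 := by omega
    have r1 : Reach 0 n (y₁ + 2 * (i : ℤ) - 2) := by
      rw [Reach_iff, abs_le]
      have := abs_le.1 h1.1
      have := abs_le.1 h2.1
      omega
    have r2 : Reach 0 n (y₁ + 2 * (i : ℤ) + 2) := by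
      rw [Reach_iff, abs_le]
      have := abs_le.1 h1.1
      have := abs_le.1 h2.1
      omega
    have h3 := ap_conc hμ r1 r2
    rw [hq]
    simp only
    rw [e1, e2]
    push_cast
    linarith
  -- a minimal index
  have hmin : ∀ i ≤ m, c ≤ q i := by
    by_contra hcon
    push Not at hcon
    obtain ⟨i0, hi0, hi0'⟩ := hcon
    obtain ⟨j, hj, hjmin⟩ := Finset.exists_min_image (range (m + 1)) q ⟨0, by simp⟩
    rw [Finset.mem_range] at hj
    have hjc : q j < c := lt_of_le_of_lt (hjmin i0 (Finset.mem_range.2 (by omega))) hi0'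
    -- the least index with value at most `q j`
    classical
    have hex : ∃ i, q i ≤ q j := ⟨j, le_rfl⟩
    have hf := Nat.find_spec hex
    set i := Nat.find hex with hi
    have hij : i ≤ j := Nat.find_min' hex le_rfl
    have hi0 : i ≠ 0 := by
      intro h0
      rw [h0] at hf
      linarith
    have him : i ≠ m := by
      intro h0
      rw [h0] at hf
      linarith
    have h4 := hconc i (by omega) (by omega)
    have h5 : q j < q (i - 1) := not_le.1 (Nat.find_min hex (show i - 1 < Nat.find hex by omega))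
    have h6 : q j ≤ q (i + 1) := hjmin (i + 1) (Finset.mem_range.2 (by omega))
    linarith
  have h7 := hmin k hkm
  rw [hq] at h7
  simp only at h7
  rw [← hk] at h7
  exact h7

/-- **The a priori bound.** -/
theorem apri (hμ : EM μ) {h v₁ v₂ η : ℝ} (hη : 0 < η) (hη1 : v₁ + η ≤ v₂ - η)
    (hv1 : -1 ≤ v₁) (hv2 : v₂ ≤ 1)
    (H1 : ∀ s : ℝ, 0 ≤ s → Lam μ h - s * v₁ ≤ Lam μ (h - s))
    (H2 : ∀ s : ℝ, 0 ≤ s → Lam μ h + s * v₂ ≤ Lam μ (h + s)) {n : ℕ} (hn : 1 ≤ n) {y : ℤ}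
    (hy : Reach 0 n y) (hy1 : (v₁ + η) * n ≤ y) (hy2 : (y : ℝ) ≤ (v₂ - η) * n) :
    n * Lam μ h - (4 / η + 2) * eps μ n ≤ ap μ n y + h * y := by
  have hn0 : (0 : ℝ) < n := by exact_mod_cast hn
  have heps : 0 ≤ eps μ n := by
    unfold eps
    have h1 : 0 ≤ Real.log (2 * (n : ℝ) + 1) := Real.log_nonneg (by linarith)
    have h2 : 0 ≤ Cc μ := by unfold Cc; positivity
    positivity
  set δ : ℝ := 2 * eps μ n / (η * n) with hδ
  have hδ0 : 0 ≤ δ := by rw [hδ]; positivity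
  have hδn : δ * (η * n) = 2 * eps μ n := by
    rw [hδ]
    field_simp
  have hδn' : 2 * (δ * n) = 4 / η * eps μ n := by
    rw [hδ]
    field_simp
    ring
  rcases hδ0.eq_or_lt with hδz | hδpos
  · -- no error at all: `eps = 0`; take a small positive tilt
    have he : eps μ n = 0 := by
      have := hδn
      rw [← hδz] at this
      linarith
    exfalso
    have h1 : 0 < Real.sqrt n := Real.sqrt_pos.2 hn0
    have h2 : 0 < Real.log (2 * (n : ℝ) + 1) := Real.log_pos (by linarith)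
    have h3 : 0 ≤ Cc μ := by unfold Cc; positivity
    have : 0 < eps μ n := by
      unfold eps
      positivity
    linarith
  obtain ⟨ya, ra, ha⟩ := exists_ap hμ (h + δ) n
  obtain ⟨yb, rb, hb⟩ := exists_ap hμ (h - δ) n
  have ha2 := ap_le hμ ra h
  have hb2 := ap_le hμ rb h
  have hA := H2 δ hδ0
  have hB := H1 δ hδ0
  have ra' := (Reach_iff.1 ra).1
  have rb' := (Reach_iff.1 rb).1
  have ra1 : |(ya : ℝ)| ≤ n := by exact_mod_cast ra'
  have rb1 : |(yb : ℝ)| ≤ n := by exact_mod_cast rb'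
  rw [abs_le] at ra1 rb1
  have hA' := mul_le_mul_of_nonneg_left hA hn0.le
  have hB' := mul_le_mul_of_nonneg_left hB hn0.le
  -- position of the end points
  have pa : (v₂ - η) * n ≤ ya := by
    have h1 : δ * ((v₂ - η) * n) ≤ δ * ya := by nlinarith
    exact le_of_mul_le_mul_left h1 hδpos
  have pb : (yb : ℝ) ≤ (v₁ + η) * n := by
    have h1 : δ * yb ≤ δ * ((v₁ + η) * n) := by nlinarith
    exact le_of_mul_le_mul_left h1 hδpos
  have ca : n * Lam μ h - (4 / η + 2) * eps μ n ≤ ap μ n ya + h * ya := by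
    have h1 : δ * ya ≤ δ * n := mul_le_mul_of_nonneg_left ra1.2 hδ0
    have h2 : -(δ * n) ≤ δ * (v₂ * n) := by nlinarith [mul_nonneg hδ0 hn0.le]
    nlinarith
  have cb : n * Lam μ h - (4 / η + 2) * eps μ n ≤ ap μ n yb + h * yb := by
    have h1 : -(δ * n) ≤ δ * yb := by
      have := mul_le_mul_of_nonneg_left rb1.1 hδ0
      linarith
    have h2 : δ * (v₁ * n) ≤ δ * n := by nlinarith [mul_nonneg hδ0 hn0.le]
    nlinarith
  have hle1 : yb ≤ y := by exact_mod_cast (pb.trans hy1)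
  have hle2 : y ≤ ya := by exact_mod_cast (hy2.trans pa)
  exact ap_ge_min hμ rb hy ra hle1 hle2 h cb ca

end

end Pool.Agent.W_7d29a1_h85
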