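import Pool.Agent.W_7d29a1_h47q.LgvU

/-!
# The exact crossing inequality with `K` slabs (`d = 1`)

A class of walks from `(t, x)` to `(N, z)` whose positions at the beginning `τ k` and at the end
`τ k + ℓ k` of the slabs `k < K` are to the left of `X k`, respectively to the right of `Y k`; the other
objects are the point to point partition functions `(τ k, X k) → (τ k + ℓ k, Y k)`. Exchanging end points
slab after slab (point to point total positivity) gives

`Z_class ∏ Z(X k → Y k) ≤ Z((t, x) → Y 0) ∏ Z(X k → Y (k+1)) Z(X (K-1) → z)`.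
-/

namespace Pool.Agent.W_7d29a1_h85

open MeasureTheory ProbabilityTheory Finset Pool.Agent.W_7d29a1_h47

noncomputable section

/-- Sorting a sum over walks by the end point, with any large enough index set. -/
lemma sum_by_end (g : Env) (t : ℕ) (x : ℤ) (n : ℕ) (v : ℤ → ℝ) {S : Finset ℤ}
    (hS : Icc (x - n) (x + n) ⊆ S) :
    ∑ s ∈ T n, Real.exp (En g t x n s) * v (x + pos s n) = ∑ b ∈ S, Zp g t x n b * v b := by
  rw [sum_end x, ← Finset.sum_subset hS]
  · refine Finset.sum_congr rfl fun b _ => ?_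
    unfold Zp
    rw [Finset.sum_mul]
    refine Finset.sum_congr rfl fun s _ => ?_
    by_cases h : x + pos s n = b
    · rw [if_pos h, if_pos h, h]
    · rw [if_neg h, if_neg h, zero_mul]
  · intro b _ hb
    rw [Zp_eq_zero hb, zero_mul]

/-- Exchange of the end points in one slab. -/
lemma Zp_exch (g : Env) (t : ℕ) {n : ℕ} {a X Y b : ℤ} (ha : a < X) (hpar : (X - a) % 2 = 0)
    (hb : Y < b) : Zp g t a n b * Zp g t X n Y ≤ Zp g t a n Y * Zp g t X n b := by
  have h1 := Kp_lgv g 0 t n ha hpar hb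
  unfold Kp at h1
  simp only [zero_mul, Real.exp_zero, one_mul] at h1
  exact h1

/-- The weight of the walks from `(t, x)`, of length `m`, with the property `P`. -/
def ZP (g : Env) (t : ℕ) (x : ℤ) (m : ℕ) (P : (ℕ → Bool) → Prop) : ℝ :=
  ∑ s ∈ T m, Real.exp (En g t x m s) * ind (P s)

lemma ZP_nonneg (g : Env) (t : ℕ) (x : ℤ) (m : ℕ) (P : (ℕ → Bool) → Prop) :
    0 ≤ ZP g t x m P :=
  Finset.sum_nonneg fun _ _ => mul_nonneg (Real.exp_pos _).le (ind_nonneg _)

lemma ZP_mono (g : Env) (t : ℕ) (x : ℤ) (m : ℕ) {P Q : (ℕ → Bool) → Prop}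
    (h : ∀ s ∈ T m, P s → Q s) : ZP g t x m P ≤ ZP g t x m Q :=
  Finset.sum_le_sum fun s hs =>
    mul_le_mul_of_nonneg_left (ind_mono (h s hs)) (Real.exp_pos _).le

lemma ZP_point (g : Env) (t : ℕ) (x : ℤ) (m : ℕ) (z : ℤ) :
    ZP g t x m (fun s => x + pos s m = z) = Zp g t x m z := by
  unfold ZP Zp
  refine Finset.sum_congr rfl fun s _ => ?_
  by_cases h : x + pos s m = z
  · rw [if_pos h, ind_true h, mul_one]
  · rw [if_neg h, ind_false h, mul_zero]

/-- Chapman–Kolmogorov for point to point functions, one direction, single intermediate points summed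
by walks. -/
lemma sum_walk_Zp (g : Env) (t : ℕ) (x : ℤ) (m ℓ : ℕ) (Y : ℤ) :
    ∑ s ∈ T m, Real.exp (En g t x m s) * Zp g (t + m) (x + pos s m) ℓ Y = Zp g t x (m + ℓ) Y := by
  rw [← ZP_point, ZP, sum_split]
  refine Finset.sum_congr rfl fun s _ => ?_
  rw [← ZP_point, ZP, Finset.mul_sum]
  refine Finset.sum_congr rfl fun r _ => ?_
  rw [En_glue, Real.exp_add, pos_glue_add, ← add_assoc x]
  ring

/-- **One slab.** -/
lemma slab (g : Env) (t : ℕ) (x : ℤ) (m ℓ m' : ℕ) {X Y : ℤ} (hpar : (X - (x + m)) % 2 = 0)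
    (P : ℤ → (ℕ → Bool) → Prop) :
    ZP g t x (m + (ℓ + m')) (fun s => x + pos s m < X ∧ Y < x + pos s (m + ℓ) ∧
        P (x + pos s (m + ℓ)) (shf (m + ℓ) s)) * Zp g (t + m) X ℓ Y ≤
      Zp g t x (m + ℓ) Y * ZP g (t + m) X (ℓ + m') (fun s => P (X + pos s ℓ) (shf ℓ s)) := by
  set R : ℤ → ℝ := fun b => ZP g (t + m + ℓ) b m' (P b) with hR
  have hR0 : ∀ b, 0 ≤ R b := fun b => ZP_nonneg _ _ _ _ _
  -- the right hand class
  obtain ⟨N, hN⟩ : ∃ N : ℕ, |x| + m + ℓ ≤ N ∧ |X| + ℓ ≤ N :=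
    ⟨(|x| + m + ℓ + (|X| + ℓ)).toNat, by
      have h1 := abs_nonneg x
      have h2 := abs_nonneg X
      constructor <;> omega⟩
  obtain ⟨S, hSdef⟩ : ∃ S : Finset ℤ, S = Icc (-(N : ℤ)) N := ⟨_, rfl⟩
  have hsub : ∀ a : ℤ, |a| + ℓ ≤ N → Icc (a - ℓ) (a + ℓ) ⊆ S := by
    intro a ha b hb
    rw [Finset.mem_Icc] at hb
    rw [hSdef, Finset.mem_Icc]
    have := abs_le.1 (le_refl |a|)
    constructor <;> omega
  have hW2 : ZP g (t + m) X (ℓ + m') (fun s => P (X + pos s ℓ) (shf ℓ s)) =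
      ∑ b ∈ S, Zp g (t + m) X ℓ b * R b := by
    rw [← sum_by_end g (t + m) X ℓ R (hsub X hN.2), ZP, sum_split]
    refine Finset.sum_congr rfl fun s _ => ?_
    rw [hR]
    simp only
    rw [ZP, Finset.mul_sum]
    refine Finset.sum_congr rfl fun r _ => ?_
    rw [En_glue, Real.exp_add, pos_glue_le le_rfl, shf_glue]
    ring
  -- the left hand class, first part fixed
  have hW1 : ZP g t x (m + (ℓ + m')) (fun s => x + pos s m < X ∧ Y < x + pos s (m + ℓ) ∧
        P (x + pos s (m + ℓ)) (shf (m + ℓ) s)) =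
      ∑ s ∈ T m, Real.exp (En g t x m s) * (ind (x + pos s m < X) *
        ∑ b ∈ S, Zp g (t + m) (x + pos s m) ℓ b * (ind (Y < b) * R b)) := by
    rw [ZP, sum_split]
    refine Finset.sum_congr rfl fun s hs => ?_
    have ha : |x + pos s m| + ℓ ≤ N := by
      have h1 := pos_abs_le s m
      have h2 := abs_add_le x (pos s m)
      omega
    rw [← sum_by_end g (t + m) (x + pos s m) ℓ (fun b => ind (Y < b) * R b) (hsub _ ha),
      Finset.mul_sum, Finset.mul_sum, sum_split]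
    refine Finset.sum_congr rfl fun r _ => ?_
    rw [hR]
    simp only
    rw [ZP]
    simp only [Finset.mul_sum]
    refine Finset.sum_congr rfl fun q _ => ?_
    rw [En_glue, En_glue, Real.exp_add, Real.exp_add, pos_glue_le le_rfl, pos_glue_add,
      pos_glue_le le_rfl, ← add_assoc x, ind_and, ind_and]
    have e1 : shf (m + ℓ) (glue m s (glue ℓ r q)) = q := by
      funext i
      simp only [shf, glue]
      have h1 : ¬ (m + ℓ + i < m) := by omega
      have h2 : ¬ (m + ℓ + i - m < ℓ) := by omega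
      rw [if_neg h1, if_neg h2]
      congr 1
      omega
    rw [e1]
    ring
  rw [hW1, hW2, Finset.sum_mul]
  calc ∑ s ∈ T m, Real.exp (En g t x m s) * (ind (x + pos s m < X) *
        ∑ b ∈ S, Zp g (t + m) (x + pos s m) ℓ b * (ind (Y < b) * R b)) * Zp g (t + m) X ℓ Y
      ≤ ∑ s ∈ T m, Real.exp (En g t x m s) * Zp g (t + m) (x + pos s m) ℓ Y *
        ∑ b ∈ S, Zp g (t + m) X ℓ b * R b := by
        refine Finset.sum_le_sum fun s _ => ?_
        have h0 : 0 ≤ Zp g (t + m) (x + pos s m) ℓ Y * ∑ b ∈ S, Zp g (t + m) X ℓ b * R b :=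
          mul_nonneg (Zp_nonneg _ _ _ _ _) (Finset.sum_nonneg fun b _ =>
            mul_nonneg (Zp_nonneg _ _ _ _ _) (hR0 b))
        have key : ind (x + pos s m < X) *
            (∑ b ∈ S, Zp g (t + m) (x + pos s m) ℓ b * (ind (Y < b) * R b)) *
              Zp g (t + m) X ℓ Y ≤
            Zp g (t + m) (x + pos s m) ℓ Y * ∑ b ∈ S, Zp g (t + m) X ℓ b * R b := by
          by_cases h : x + pos s m < X
          · rw [ind_true h, one_mul, Finset.sum_mul, Finset.mul_sum]
            refine Finset.sum_le_sum fun b _ => ?_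
            by_cases hb : Y < b
            · rw [ind_true hb, one_mul]
              have hp : (X - (x + pos s m)) % 2 = 0 := by
                have := pos_parity s m
                omega
              have h1 := Zp_exch g (t + m) (n := ℓ) h hp hb
              calc Zp g (t + m) (x + pos s m) ℓ b * R b * Zp g (t + m) X ℓ Y
                  = (Zp g (t + m) (x + pos s m) ℓ b * Zp g (t + m) X ℓ Y) * R b := by ring
                _ ≤ (Zp g (t + m) (x + pos s m) ℓ Y * Zp g (t + m) X ℓ b) * R b :=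
                    mul_le_mul_of_nonneg_right h1 (hR0 b)
                _ = _ := by ring
            · rw [ind_false hb]
              have : 0 ≤ Zp g (t + m) (x + pos s m) ℓ Y * (Zp g (t + m) X ℓ b * R b) :=
                mul_nonneg (Zp_nonneg _ _ _ _ _) (mul_nonneg (Zp_nonneg _ _ _ _ _) (hR0 b))
              linarith
          · rw [ind_false h]
            linarith
        calc Real.exp (En g t x m s) * (ind (x + pos s m < X) *
            ∑ b ∈ S, Zp g (t + m) (x + pos s m) ℓ b * (ind (Y < b) * R b)) * Zp g (t + m) X ℓ Y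
            = Real.exp (En g t x m s) * (ind (x + pos s m < X) *
            (∑ b ∈ S, Zp g (t + m) (x + pos s m) ℓ b * (ind (Y < b) * R b)) *
              Zp g (t + m) X ℓ Y) := by ring
          _ ≤ Real.exp (En g t x m s) * (Zp g (t + m) (x + pos s m) ℓ Y *
              ∑ b ∈ S, Zp g (t + m) X ℓ b * R b) :=
              mul_le_mul_of_nonneg_left key (Real.exp_pos _).le
          _ = _ := by ring
    _ = Zp g t x (m + ℓ) Y * ∑ b ∈ S, Zp g (t + m) X ℓ b * R b := by
        rw [← Finset.sum_mul, sum_walk_Zp]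

/-- The walks from `(t, x)` to `(N, z)` which pass the slabs `k, k + 1, …, K - 1` in the right way. -/
def Pass (τ ℓ : ℕ → ℕ) (X Y : ℕ → ℤ) (K N : ℕ) (z : ℤ) (k t : ℕ) (x : ℤ) (s : ℕ → Bool) : Prop :=
  (∀ i, k ≤ i → i < K → x + pos s (τ i - t) < X i ∧ Y i < x + pos s (τ i + ℓ i - t)) ∧
    x + pos s (N - t) = z

/-- **The crossing inequality**, slabs `k, …, K - 1` (`k < K`). -/
theorem cross (g : Env) {τ ℓ : ℕ → ℕ} {X Y : ℕ → ℤ} {K N : ℕ} {z : ℤ}
    (hord : ∀ i, i + 1 < K → τ i + ℓ i ≤ τ (i + 1)) (hN : ∀ i, i < K → τ i + ℓ i ≤ N)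
    (hpar : ∀ i, i + 1 < K → (X (i + 1) - X i - (τ (i + 1) - τ i : ℕ)) % 2 = 0) {k : ℕ} (hk : k < K)
    {t : ℕ} {x : ℤ} (ht : t ≤ τ k) (hx : (X k - (x + (τ k - t : ℕ))) % 2 = 0) :
    ZP g t x (N - t) (Pass τ ℓ X Y K N z k t x) * ∏ i ∈ Ico k K, Zp g (τ i) (X i) (ℓ i) (Y i) ≤
      Zp g t x (τ k + ℓ k - t) (Y k) *
        (∏ i ∈ Ico k (K - 1), Zp g (τ i) (X i) (τ (i + 1) + ℓ (i + 1) - τ i) (Y (i + 1))) *
          Zp g (τ (K - 1)) (X (K - 1)) (N - τ (K - 1)) z := by
  -- induction on the number of slabs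
  obtain ⟨m, hm⟩ : ∃ m, K = k + 1 + m := ⟨K - (k + 1), by omega⟩
  induction m generalizing k t x with
  | zero =>
    have hK : K = k + 1 := by omega
    subst hK
    have h1 : τ k + ℓ k ≤ N := hN k (by omega)
    have h2 := slab g t x (τ k - t) (ℓ k) (N - (τ k + ℓ k)) (X := X k) (Y := Y k) hx
      (fun b s => b + pos s (N - (τ k + ℓ k)) = z)
    have e1 : τ k - t + (ℓ k + (N - (τ k + ℓ k))) = N - t := by omega
    have e2 : t + (τ k - t) = τ k := by omega
    have e3 : τ k - t + ℓ k = τ k + ℓ k - t := by omega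
    have e4 : ℓ k + (N - (τ k + ℓ k)) = N - τ k := by omega
    rw [e1, e2, e3, e4] at h2
    have h3 : ZP g (τ k) (X k) (N - τ k)
        (fun s => X k + pos s (ℓ k) + pos (shf (ℓ k) s) (N - (τ k + ℓ k)) = z) =
        Zp g (τ k) (X k) (N - τ k) z := by
      rw [← ZP_point]
      congr 1
      funext s
      rw [add_assoc, ← pos_add, e4]
    rw [h3] at h2
    simp only [Finset.Ico_self, Nat.add_sub_cancel, Finset.prod_empty, mul_one]
    rw [Nat.Ico_succ_singleton, Finset.prod_singleton]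
    refine le_trans (mul_le_mul_of_nonneg_right (ZP_mono g t x (N - t) ?_) (Zp_nonneg _ _ _ _ _)) h2
    rintro s _ ⟨h4, h5⟩
    obtain ⟨h6, h7⟩ := h4 k le_rfl (by omega)
    refine ⟨h6, h7, ?_⟩
    rw [add_assoc, ← pos_add]
    rw [show τ k + ℓ k - t + (N - (τ k + ℓ k)) = N - t by omega]
    exact h5
  | succ m ih =>
    have h1 : τ k + ℓ k ≤ τ (k + 1) := hord k (by omega)
    have hNk : τ k + ℓ k ≤ N := hN k (by omega)
    have hx' : (X (k + 1) - (X k + (τ (k + 1) - τ k : ℕ))) % 2 = 0 := by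
      have := hpar k (by omega)
      rw [sub_sub] at this
      exact this
    have h2 := ih (k := k + 1) (t := τ k) (x := X k) (by omega) (by omega) hx' (by omega)
    have h3 := slab g t x (τ k - t) (ℓ k) (N - (τ k + ℓ k)) (X := X k) (Y := Y k) hx
      (fun b s => (∀ i, k + 1 ≤ i → i < K → b + pos s (τ i - (τ k + ℓ k)) < X i ∧
        Y i < b + pos s (τ i + ℓ i - (τ k + ℓ k))) ∧ b + pos s (N - (τ k + ℓ k)) = z)
    have e1 : τ k - t + (ℓ k + (N - (τ k + ℓ k))) = N - t := by omega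
    have e2 : t + (τ k - t) = τ k := by omega
    have e3 : τ k - t + ℓ k = τ k + ℓ k - t := by omega
    have e4 : ℓ k + (N - (τ k + ℓ k)) = N - τ k := by omega
    rw [e1, e2, e3, e4] at h3
    -- times of the later slabs are after `τ k + ℓ k`
    have hlate : ∀ i, k + 1 ≤ i → i < K → τ k + ℓ k ≤ τ i := by
      intro i hi hiK
      induction i with
      | zero => omega
      | succ i ihi =>
        rcases Nat.lt_or_ge k i with h | h
        · have h4 := ihi (by omega) (by omega)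
          have h5 := hord i (by omega)
          omega
        · have : i = k := by omega
          subst this
          exact h1
    have hA : ZP g t x (N - t) (Pass τ ℓ X Y K N z k t x) ≤
        ZP g t x (N - t) (fun s => x + pos s (τ k - t) < X k ∧ Y k < x + pos s (τ k + ℓ k - t) ∧
          ((∀ i, k + 1 ≤ i → i < K →
            x + pos s (τ k + ℓ k - t) + pos (shf (τ k + ℓ k - t) s) (τ i - (τ k + ℓ k)) < X i ∧
            Y i < x + pos s (τ k + ℓ k - t) +
              pos (shf (τ k + ℓ k - t) s) (τ i + ℓ i - (τ k + ℓ k))) ∧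
            x + pos s (τ k + ℓ k - t) + pos (shf (τ k + ℓ k - t) s) (N - (τ k + ℓ k)) = z)) := by
      refine ZP_mono g t x (N - t) ?_
      rintro s _ ⟨h4, h5⟩
      obtain ⟨h6, h7⟩ := h4 k le_rfl (by omega)
      refine ⟨h6, h7, fun i hi hiK => ?_, ?_⟩
      · obtain ⟨h8, h9⟩ := h4 i (by omega) hiK
        have h10 := hlate i hi hiK
        rw [add_assoc x, ← pos_add, add_assoc x, ← pos_add,
          show τ k + ℓ k - t + (τ i - (τ k + ℓ k)) = τ i - t by omega,
          show τ k + ℓ k - t + (τ i + ℓ i - (τ k + ℓ k)) = τ i + ℓ i - t by omega]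
        exact ⟨h8, h9⟩
      · rw [add_assoc x, ← pos_add, show τ k + ℓ k - t + (N - (τ k + ℓ k)) = N - t by omega]
        exact h5
    have hB : ZP g (τ k) (X k) (N - τ k) (fun s => (∀ i, k + 1 ≤ i → i < K →
            X k + pos s (ℓ k) + pos (shf (ℓ k) s) (τ i - (τ k + ℓ k)) < X i ∧
            Y i < X k + pos s (ℓ k) + pos (shf (ℓ k) s) (τ i + ℓ i - (τ k + ℓ k))) ∧
            X k + pos s (ℓ k) + pos (shf (ℓ k) s) (N - (τ k + ℓ k)) = z) ≤
        ZP g (τ k) (X k) (N - τ k) (Pass τ ℓ X Y K N z (k + 1) (τ k) (X k)) := by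
      refine ZP_mono g (τ k) (X k) (N - τ k) ?_
      rintro s _ ⟨h4, h5⟩
      refine ⟨fun i hi hiK => ?_, ?_⟩
      · obtain ⟨h8, h9⟩ := h4 i hi hiK
        have h10 := hlate i hi hiK
        rw [add_assoc (X k), ← pos_add, show ℓ k + (τ i - (τ k + ℓ k)) = τ i - τ k by omega] at h8
        rw [add_assoc (X k), ← pos_add,
          show ℓ k + (τ i + ℓ i - (τ k + ℓ k)) = τ i + ℓ i - τ k by omega] at h9
        exact ⟨h8, h9⟩
      · rw [add_assoc (X k), ← pos_add, e4] at h5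
        exact h5
    have hprod : ∏ i ∈ Ico k K, Zp g (τ i) (X i) (ℓ i) (Y i) =
        Zp g (τ k) (X k) (ℓ k) (Y k) * ∏ i ∈ Ico (k + 1) K, Zp g (τ i) (X i) (ℓ i) (Y i) :=
      Finset.prod_eq_prod_Ico_succ_bot (by omega) _
    have hprod' : ∏ i ∈ Ico k (K - 1),
          Zp g (τ i) (X i) (τ (i + 1) + ℓ (i + 1) - τ i) (Y (i + 1)) =
        Zp g (τ k) (X k) (τ (k + 1) + ℓ (k + 1) - τ k) (Y (k + 1)) *
          ∏ i ∈ Ico (k + 1) (K - 1),
            Zp g (τ i) (X i) (τ (i + 1) + ℓ (i + 1) - τ i) (Y (i + 1)) :=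
      Finset.prod_eq_prod_Ico_succ_bot (by omega) _
    have hP0 : 0 ≤ ∏ i ∈ Ico (k + 1) K, Zp g (τ i) (X i) (ℓ i) (Y i) :=
      Finset.prod_nonneg fun _ _ => Zp_nonneg _ _ _ _ _
    rw [hprod, hprod']
    calc ZP g t x (N - t) (Pass τ ℓ X Y K N z k t x) * (Zp g (τ k) (X k) (ℓ k) (Y k) *
          ∏ i ∈ Ico (k + 1) K, Zp g (τ i) (X i) (ℓ i) (Y i))
        = (ZP g t x (N - t) (Pass τ ℓ X Y K N z k t x) * Zp g (τ k) (X k) (ℓ k) (Y k)) *
          ∏ i ∈ Ico (k + 1) K, Zp g (τ i) (X i) (ℓ i) (Y i) := by ring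
      _ ≤ (Zp g t x (τ k + ℓ k - t) (Y k) *
          ZP g (τ k) (X k) (N - τ k) (Pass τ ℓ X Y K N z (k + 1) (τ k) (X k))) *
          ∏ i ∈ Ico (k + 1) K, Zp g (τ i) (X i) (ℓ i) (Y i) := by
          refine mul_le_mul_of_nonneg_right ?_ hP0
          refine le_trans (mul_le_mul_of_nonneg_right hA (Zp_nonneg _ _ _ _ _)) (le_trans h3 ?_)
          exact mul_le_mul_of_nonneg_left hB (Zp_nonneg _ _ _ _ _)
      _ = Zp g t x (τ k + ℓ k - t) (Y k) *
          (ZP g (τ k) (X k) (N - τ k) (Pass τ ℓ X Y K N z (k + 1) (τ k) (X k)) *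
          ∏ i ∈ Ico (k + 1) K, Zp g (τ i) (X i) (ℓ i) (Y i)) := by ring
      _ ≤ Zp g t x (τ k + ℓ k - t) (Y k) * _ :=
          mul_le_mul_of_nonneg_left h2 (Zp_nonneg _ _ _ _ _)
      _ = _ := by ring

end

end Pool.Agent.W_7d29a1_h85
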