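import Pool.Agent.W_7d29a1_h47q.LdA

/-!
# The logarithmic lower bound for the excess (AM-GM)

If many end points have mean point to point free energy at least `m - E`, while the free energy
of the sum has mean at most `m`, then the number of these end points is at most `e ^ E`.
-/

namespace Pool.Agent.W_7d29a1_h85

open MeasureTheory ProbabilityTheory Finset Pool.Agent.W_7d29a1_h47

noncomputable section

/-- AM-GM, pointwise. -/
lemma sum_log_le {ι : Type*} (S : Finset ι) (hS : S.Nonempty) (w : ι → ℝ) (hw : ∀ b ∈ S, 0 < w b) :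
    ∑ b ∈ S, Real.log (w b) ≤ S.card * (Real.log (∑ b ∈ S, w b) - Real.log S.card) := by
  have hc : (0 : ℝ) < S.card := by exact_mod_cast hS.card_pos
  have hs : 0 < ∑ b ∈ S, w b := Finset.sum_pos hw hS
  have ha : 0 < (∑ b ∈ S, w b) / S.card := div_pos hs hc
  have h1 : ∀ b ∈ S, Real.log (w b) ≤
      Real.log ((∑ b ∈ S, w b) / S.card) + w b / ((∑ b ∈ S, w b) / S.card) - 1 := by
    intro b hb
    have h2 := Real.log_le_sub_one_of_pos (div_pos (hw b hb) ha)
    rw [Real.log_div (hw b hb).ne' ha.ne'] at h2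
    linarith
  refine (Finset.sum_le_sum h1).trans (le_of_eq ?_)
  rw [Finset.sum_sub_distrib, Finset.sum_add_distrib, ← Finset.sum_div, Finset.sum_const,
    Finset.sum_const, nsmul_eq_mul, nsmul_eq_mul, Real.log_div hs.ne' hc.ne']
  have : (∑ b ∈ S, w b) / ((∑ b ∈ S, w b) / S.card) = S.card := by
    field_simp
  rw [this]
  ring

/-- The logarithmic lower bound, for any probability space. -/
theorem amgm_low {Ω ι : Type*} [MeasurableSpace Ω] (P : Measure Ω) [IsProbabilityMeasure P]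
    (S : Finset ι) (hS : S.Nonempty) (W : ι → Ω → ℝ) (hW : ∀ b ∈ S, ∀ ω, 0 < W b ω)
    (hi : ∀ b ∈ S, Integrable (fun ω => Real.log (W b ω)) P) (F : Ω → ℝ)
    (hF : ∀ ω, ∑ b ∈ S, W b ω ≤ F ω) (hFi : Integrable (fun ω => Real.log (F ω)) P) {E m : ℝ}
    (hE : ∀ b ∈ S, m - E ≤ ∫ ω, Real.log (W b ω) ∂P) (hm : ∫ ω, Real.log (F ω) ∂P ≤ m) :
    Real.log S.card ≤ E := by
  have hc : (0 : ℝ) < S.card := by exact_mod_cast hS.card_pos
  have h1 : ∀ ω, ∑ b ∈ S, Real.log (W b ω) ≤
      S.card * (Real.log (F ω) - Real.log S.card) := by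
    intro ω
    refine (sum_log_le S hS (fun b => W b ω) fun b hb => hW b hb ω).trans ?_
    have := Real.log_le_log (Finset.sum_pos (fun b hb => hW b hb ω) hS) (hF ω)
    exact mul_le_mul_of_nonneg_left (by linarith) hc.le
  have h2 := integral_mono (integrable_finset_sum S hi)
    ((hFi.sub (integrable_const (Real.log S.card))).const_mul (S.card : ℝ)) h1
  rw [integral_finset_sum S hi, integral_const_mul, integral_sub' hFi (integrable_const _),
    integral_const, probReal_univ, one_smul] at h2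
  have h3 : (S.card : ℝ) * (m - E) ≤ ∑ b ∈ S, ∫ ω, Real.log (W b ω) ∂P := by
    have := Finset.sum_le_sum hE
    rwa [Finset.sum_const, nsmul_eq_mul] at this
  have h4 : (S.card : ℝ) * (m - E) ≤ S.card * (m - Real.log S.card) :=
    h3.trans (h2.trans (mul_le_mul_of_nonneg_left (by linarith) hc.le))
  have h5 := le_of_mul_le_mul_left h4 hc
  linarith

variable {μ : Measure ℝ} [IsProbabilityMeasure μ]

/-- The number of end points with small mean excess. -/
theorem low_log (hμ : EM μ) (h : ℝ) {n : ℕ} (S : Finset ℤ) (hS : S.Nonempty)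
    (hR : ∀ y ∈ S, Reach 0 n y) {E : ℝ}
    (hE : ∀ y ∈ S, n * Lam μ h - h * y - ap μ n y ≤ E) : Real.log S.card ≤ E := by
  have hp : ∀ y ∈ S, ∀ g : Env, Real.log (Real.exp (h * ((y : ℝ) - 0)) * Zp g 0 0 n y) =
      h * y + Real.log (Zp g 0 0 n y) := by
    intro y hy g
    rw [Real.log_mul (Real.exp_pos _).ne' (Zp_pos g (hR y hy) 0).ne', Real.log_exp, sub_zero]
  refine amgm_low (law μ) S hS (fun y g => Real.exp (h * ((y : ℝ) - 0)) * Zp g 0 0 n y)
    (fun y hy g => mul_pos (Real.exp_pos _) (Zp_pos g (hR y hy) 0)) ?_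
    (fun g => Z g h 0 0 n) ?_ (EMom_logZ hμ h 0 0 n).integrable (m := n * Lam μ h) ?_ ?_
  · intro y hy
    simp only [hp y hy]
    exact (integrable_const _).add (EMom_logZp hμ (hR y hy) 0).integrable
  · intro g
    rw [Z_eq_sum_Zp]
    simp only [Int.cast_zero]
    refine Finset.sum_le_sum_of_subset_of_nonneg ?_ fun y _ _ =>
      mul_nonneg (Real.exp_pos _).le (Zp_nonneg g 0 0 n y)
    intro y hy
    have h1 := (Reach_iff.1 (hR y hy)).1
    rw [abs_le] at h1
    rw [Finset.mem_Icc]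
    omega
  · intro y hy
    simp only [hp y hy]
    rw [integral_add (integrable_const _) (EMom_logZp hμ (hR y hy) 0).integrable, integral_const,
      probReal_univ, one_smul, integral_logZp, sub_zero]
    have := hE y hy
    linarith
  · exact a_le_Lam hμ h n

/-- The excess inside a cone is at least logarithmic. -/
theorem low_cone (hμ : EM μ) (h : ℝ) {w1 w2 : ℝ} (h1 : -1 ≤ w1) (h2 : w2 ≤ 1) (h12 : w1 < w2) :
    ∃ C : ℝ, ∀ n : ℕ, 1 ≤ n → ∀ E : ℝ, 0 ≤ E →
      (∀ y : ℤ, Reach 0 n y → w1 * n ≤ y → y ≤ w2 * n → n * Lam μ h - h * y - ap μ n y ≤ E) →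
      Real.log n - C ≤ E := by
  refine ⟨Real.log (4 / (w2 - w1)), fun n hn E hE hy => ?_⟩
  have hd : 0 < w2 - w1 := by linarith
  have hn0 : (0 : ℝ) < n := by exact_mod_cast hn
  have e0 : Real.log n - Real.log (4 / (w2 - w1)) = Real.log ((w2 - w1) * n / 4) := by
    rw [← Real.log_div hn0.ne' (by positivity)]
    congr 1
    field_simp
  rw [e0]
  rcases lt_or_ge ((w2 - w1) * n / 2) 1 with hx | hx
  · exact (Real.log_nonpos (by positivity) (by linarith)).trans hE
  set k : ℕ := ⌊(w2 - w1) * n / 2⌋₊ with hk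
  have hk1 : (k : ℝ) ≤ (w2 - w1) * n / 2 := Nat.floor_le (by positivity)
  have hk2 : (w2 - w1) * n / 2 < k + 1 := Nat.lt_floor_add_one _
  have hk0 : 1 ≤ k := (Nat.one_le_floor_iff _).2 hx
  have hk0' : (1 : ℝ) ≤ k := by exact_mod_cast hk0
  obtain ⟨y0, hy0, hy0', hy0p⟩ : ∃ y0 : ℤ, w1 * n ≤ y0 ∧ (y0 : ℝ) < w1 * n + 2 ∧
      y0 % 2 = (n : ℤ) % 2 := by
    rcases Int.emod_two_eq_zero_or_one (⌈w1 * n⌉ - n) with hp | hp
    · exact ⟨⌈w1 * n⌉, Int.le_ceil _, by linarith [Int.ceil_lt_add_one (w1 * n)], by omega⟩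
    · refine ⟨⌈w1 * n⌉ + 1, ?_, ?_, by omega⟩
      · push_cast
        linarith [Int.le_ceil (w1 * (n : ℝ))]
      · push_cast
        linarith [Int.ceil_lt_add_one (w1 * (n : ℝ))]
  set S : Finset ℤ := (Finset.range k).image (fun j : ℕ => y0 + 2 * (j : ℤ)) with hS
  have hcard : S.card = k := by
    rw [hS, Finset.card_image_of_injective _ (fun a b hab => by simpa using hab), Finset.card_range]
  have hmem : ∀ y ∈ S, w1 * n ≤ y ∧ (y : ℝ) ≤ w2 * n ∧ y % 2 = (n : ℤ) % 2 := by
    intro y hy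
    rw [hS, Finset.mem_image] at hy
    obtain ⟨j, hj, rfl⟩ := hy
    have hj' : (j : ℝ) + 1 ≤ k := by exact_mod_cast Finset.mem_range.1 hj
    refine ⟨?_, ?_, by omega⟩
    · push_cast
      have : (0 : ℝ) ≤ j := Nat.cast_nonneg j
      linarith
    · push_cast
      nlinarith
  have hR : ∀ y ∈ S, Reach 0 n y := by
    intro y hy
    obtain ⟨a1, a2, a3⟩ := hmem y hy
    refine Reach_iff.2 ⟨?_, a3⟩
    rw [abs_le]
    constructor
    · have : (-(n : ℤ) : ℝ) ≤ y := by
        push_cast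
        nlinarith
      exact_mod_cast this
    · have : (y : ℝ) ≤ (n : ℤ) := by
        push_cast
        nlinarith
      exact_mod_cast this
  have hne : S.Nonempty := Finset.card_pos.1 (by omega)
  have h3 := low_log hμ h S hne hR (E := E) fun y hy' =>
    hy y (hR y hy') (hmem y hy').1 (hmem y hy').2.1
  rw [hcard] at h3
  refine (Real.log_le_log (by positivity) ?_).trans h3
  linarith

end

end Pool.Agent.W_7d29a1_h85
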